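import Pool.Agent.H11.CV.Targets

/-!
# Module BR (MP_e21eee_nt): the broad part
-/

set_option autoImplicit false

open Finset Polynomial

namespace Pool.Agent.H20.CV

open Pool.Agent.H11.CV

open Classical in
theorem cnt_eq_sum {G : Type} [Fintype G] (S : Set G) :
    cnt S = ∑ g, (if g ∈ S then (1 : ℝ) else 0) := by
  unfold cnt
  rw [Finset.card_filter]
  push_cast
  rfl

theorem sq_inv (hEX : T_EX) (hCB : T_CB) (hPB : T_PB) {p d n j : ℕ} {lam : ℝ} {G : Type}
    [AddCommGroup G] [Fintype G] {τ : ℤ[X] →+ G} {f : ℕ → G → ℂ} (hp : 1 < p) (hd : 1 ≤ d)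
    (hj : j ≤ n) (hf : Fam p d n τ f) (Q : ℤ[X]) (hQ : Q.natDegree ≤ d) (g : G) (i : ℕ)
    (hi : i ≤ j) :
    sq p n lam f i (g + τ (C ((p : ℤ) ^ (d * n - (n - j))) * Q)) = sq p n lam f i g := by
  unfold Pool.Agent.H11.CV.sq
  refine Finset.sum_congr rfl fun ξ hξ => ?_
  have hξ' : ξ < p ^ (n - i) := Finset.mem_range.1 hξ
  have h1 := ((hPB p d n lam G τ f hp hd hf).1 i (hi.trans hj) ξ hξ').1
  have h2 := (hCB p d (d * n) G τ hp).2.2.2.2 (n - i) (n - j) (ξ : ℤ) Q _ (by omega)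
    (le_trans (Nat.sub_le _ _) (Nat.le_mul_of_pos_left n hd)) hQ h1 g
  rw [h2, norm_mul, hEX.1, one_mul]

theorem br (hEX : T_EX) (hKL : T_KL) (hPB : T_PB) (hCB : T_CB) (hSQ : T_SQ) (hCC : T_CC) :
    T_BR := by
  classical
  intro p d n j lam α G _ _ τ f hpp hdp hd hj hjn hα hf hbd
  have hp : 1 < p := hpp.one_lt
  have hppos : (0 : ℝ) < p := by exact_mod_cast hpp.pos
  have hn1 : 1 ≤ n := by omega
  set a : ℕ := n - j with ha
  have ha1 : 1 ≤ a := by omega
  set F : ℕ → G → ℂ := pr p n lam f j with hF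
  set O : Set G := Om p n lam f j with hO
  let w : G → ℝ := fun g => if g ∈ O then 1 else 0
  have hw0 : ∀ g, 0 ≤ w g := by
    intro g
    simp only [w]
    split_ifs <;> norm_num
  -- invariance of the weight
  have hOinv : ∀ (Q : ℤ[X]) (g : G), Q.natDegree ≤ d →
      ((g + τ (C ((p : ℤ) ^ (d * n - a)) * Q)) ∈ O ↔ g ∈ O) := by
    intro Q g hQ
    have key := fun i hi => sq_inv (lam := lam) hEX hCB hPB hp hd hjn.le hf Q hQ g i hi
    show (_ ∧ _) ↔ (_ ∧ _)
    rw [key j le_rfl]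
    refine and_congr_right fun _ => forall_congr' fun i => ?_
    refine forall_congr' fun h1 => forall_congr' fun h2 => ?_
    rw [key i h2.le]
  have hwinv : ∀ (Q : ℤ[X]) (g : G), Q.natDegree ≤ d →
      w (g + τ (C ((p : ℤ) ^ (d * n - a)) * Q)) = w g := by
    intro Q g hQ
    simp only [w, hOinv Q g hQ]
  -- orthogonality
  have hFcls : ∀ ξ : ℕ, ξ < p ^ a → Cls p d (d * n) τ a (ξ : ℤ) (F ξ) := fun ξ hξ =>
    ((hPB p d n lam G τ f hp hd hf).1 j hjn.le ξ hξ).1
  have hadn : a ≤ d * n := le_trans (Nat.sub_le _ _) (Nat.le_mul_of_pos_left n hd)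
  -- bound of the square function on `O`
  have hsq : ∀ g ∈ O, sq p n lam f j g ≤ 3 * (p : ℝ) * (p : ℝ) ^ n := by
    intro g hg
    obtain ⟨j', rfl⟩ : ∃ j', j = j' + 1 := ⟨j - 1, by omega⟩
    have h1 := (hSQ p n lam G f g hp).1 j' (by omega)
    have h2 : sq p n lam f j' g ≤ 3 * (p : ℝ) ^ n := by
      rcases Nat.eq_zero_or_pos j' with h0 | h0
      · subst h0
        have h3 := (hSQ p n lam G f g hp).2.1 hbd
        have h4 : (0 : ℝ) ≤ (p : ℝ) ^ n := by positivity
        linarith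
      · exact (hg.2 j' h0 (Nat.lt_succ_self _)).trans ((hCC p n j' hp hn1).1 (by omega)).2
    calc sq p n lam f (j' + 1) g ≤ p * sq p n lam f j' g := h1
      _ ≤ p * (3 * (p : ℝ) ^ n) := by gcongr
      _ = 3 * (p : ℝ) * (p : ℝ) ^ n := by ring
  -- the bound for one tuple
  have hone : ∀ c : Fin d → ℕ, (∀ i, c i < p) → Function.Injective c →
      ∑ g, w g * ∏ i, ‖clsum p a F (c i) g‖ ^ 2 ≤
        (3 * (p : ℝ) * (p : ℝ) ^ n) ^ d * cnt O := by
    intro c hc hinj
    rw [hKL p d (d * n) a G τ F w c hpp hdp ha1 hadn hFcls hc hinj hwinv]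
    rw [cnt_eq_sum, Finset.mul_sum]
    refine Finset.sum_le_sum fun g _ => ?_
    by_cases hg : g ∈ O
    · simp only [w, if_pos hg, one_mul, mul_one]
      calc ∏ i, ∑ ξ ∈ (range (p ^ a)).filter (fun ξ => ξ % p = c i), ‖F ξ g‖ ^ 2
          ≤ ∏ _i : Fin d, (3 * (p : ℝ) * (p : ℝ) ^ n) := by
            refine Finset.prod_le_prod (fun i _ => Finset.sum_nonneg fun _ _ => by positivity) ?_
            intro i _
            refine le_trans ?_ (hsq g hg)
            unfold Pool.Agent.H11.CV.sq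
            exact Finset.sum_le_sum_of_subset_of_nonneg (Finset.filter_subset _ _)
              fun _ _ _ => by positivity
        _ = (3 * (p : ℝ) * (p : ℝ) ^ n) ^ d := by simp
    · simp only [w, if_neg hg, zero_mul, mul_zero, le_refl]
  -- tuples
  let I : Finset (Fin d → ℕ) := (Fintype.piFinset fun _ : Fin d => range p).filter
    fun c => Function.Injective c
  have hIcard : (I.card : ℝ) ≤ (p : ℝ) ^ d := by
    have h1 : I.card ≤ p ^ d := by
      refine (Finset.card_filter_le _ _).trans ?_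
      simp
    exact_mod_cast h1
  have hI : ∀ c ∈ I, (∀ i, c i < p) ∧ Function.Injective c := by
    intro c hc
    rw [Finset.mem_filter, Fintype.mem_piFinset] at hc
    exact ⟨fun i => Finset.mem_range.1 (hc.1 i), hc.2⟩
  set S : Set G := {g : G | g ∈ Om p n lam f j ∧ ∃ c : Fin d → ℕ, Function.Injective c ∧
          (∀ i, c i < p) ∧ ∀ i, α / (4 * p) ≤ ‖clsum p (n - j) (pr p n lam f j) (c i) g‖} with hS
  have hβ : 0 < α / (4 * (p : ℝ)) := by positivity
  have hmain : cnt S * (α / (4 * (p : ℝ))) ^ (2 * d) ≤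
      (p : ℝ) ^ d * ((3 * (p : ℝ) * (p : ℝ) ^ n) ^ d * cnt O) := by
    calc cnt S * (α / (4 * (p : ℝ))) ^ (2 * d)
        = ∑ g, (if g ∈ S then (1 : ℝ) else 0) * (α / (4 * (p : ℝ))) ^ (2 * d) := by
          rw [cnt_eq_sum, Finset.sum_mul]
          refine Finset.sum_congr rfl fun g _ => ?_
          congr 1
          by_cases hg : g ∈ S <;> simp [hg]
      _ ≤ ∑ g, ∑ c ∈ I, w g * ∏ i, ‖clsum p a F (c i) g‖ ^ 2 := by
          refine Finset.sum_le_sum fun g _ => ?_
          have hnn : ∀ c ∈ I, 0 ≤ w g * ∏ i, ‖clsum p a F (c i) g‖ ^ 2 := fun c _ =>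
            mul_nonneg (hw0 g) (Finset.prod_nonneg fun _ _ => by positivity)
          by_cases hg : g ∈ S
          · rw [if_pos hg, one_mul]
            obtain ⟨hgO, c, hinj, hc, hcg⟩ := hg
            have hcI : c ∈ I := by
              rw [Finset.mem_filter, Fintype.mem_piFinset]
              exact ⟨fun i => Finset.mem_range.2 (hc i), hinj⟩
            refine le_trans ?_ (Finset.single_le_sum hnn hcI)
            have hwg : w g = 1 := if_pos hgO
            rw [hwg, one_mul]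
            calc (α / (4 * (p : ℝ))) ^ (2 * d) = ∏ _i : Fin d, (α / (4 * (p : ℝ))) ^ 2 := by
                  simp [pow_mul]
              _ ≤ ∏ i, ‖clsum p a F (c i) g‖ ^ 2 := by
                  refine Finset.prod_le_prod (fun _ _ => by positivity) fun i _ => ?_
                  exact pow_le_pow_left₀ hβ.le (hcg i) 2
          · rw [if_neg hg, zero_mul]
            exact Finset.sum_nonneg hnn
      _ = ∑ c ∈ I, ∑ g, w g * ∏ i, ‖clsum p a F (c i) g‖ ^ 2 := Finset.sum_comm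
      _ ≤ ∑ _c ∈ I, (3 * (p : ℝ) * (p : ℝ) ^ n) ^ d * cnt O :=
          Finset.sum_le_sum fun c hc => hone c (hI c hc).1 (hI c hc).2
      _ = (I.card : ℝ) * ((3 * (p : ℝ) * (p : ℝ) ^ n) ^ d * cnt O) := by
          rw [Finset.sum_const, nsmul_eq_mul]
      _ ≤ (p : ℝ) ^ d * ((3 * (p : ℝ) * (p : ℝ) ^ n) ^ d * cnt O) := by
          have : 0 ≤ cnt O := by unfold cnt; positivity
          gcongr
  have hfin : cnt S * α ^ (2 * d) =
      (4 * (p : ℝ)) ^ (2 * d) * (cnt S * (α / (4 * (p : ℝ))) ^ (2 * d)) := by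
    rw [div_pow]
    field_simp
  rw [hfin]
  calc (4 * (p : ℝ)) ^ (2 * d) * (cnt S * (α / (4 * (p : ℝ))) ^ (2 * d))
      ≤ (4 * (p : ℝ)) ^ (2 * d) * ((p : ℝ) ^ d * ((3 * (p : ℝ) * (p : ℝ) ^ n) ^ d * cnt O)) := by
        gcongr
    _ = (p : ℝ) ^ d * (4 * (p : ℝ)) ^ (2 * d) * (3 * (p : ℝ) * (p : ℝ) ^ n) ^ d * cnt O := by
        ring

end Pool.Agent.H20.CV
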