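import Pool.Agent.H11.CV.Targets

/-!
# Module LF (MP_e21eee_nt): decoupling from level sets
-/

set_option autoImplicit false

open Finset Polynomial

namespace Pool.Agent.H20.CV

open Pool.Agent.H11.CV

/-- dyadic piece -/
noncomputable def dy (j : ℤ) (z : ℂ) : ℂ := if ‖z‖ ≠ 0 ∧ Int.log 2 ‖z‖ = j then z else 0

theorem two_add_pow {a b : ℝ} (ha : 0 ≤ a) (hb : 0 ≤ b) (m : ℕ) :
    (a + b) ^ m ≤ 2 ^ m * (a ^ m + b ^ m) := by
  rcases le_total a b with h | h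
  · calc (a + b) ^ m ≤ (2 * b) ^ m := pow_le_pow_left₀ (by linarith) (by linarith) m
      _ = 2 ^ m * b ^ m := mul_pow _ _ _
      _ ≤ 2 ^ m * (a ^ m + b ^ m) := by
        have : 0 ≤ a ^ m := by positivity
        gcongr
        linarith
  · calc (a + b) ^ m ≤ (2 * a) ^ m := pow_le_pow_left₀ (by linarith) (by linarith) m
      _ = 2 ^ m * a ^ m := mul_pow _ _ _
      _ ≤ 2 ^ m * (a ^ m + b ^ m) := by
        have : 0 ≤ b ^ m := by positivity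
        gcongr
        linarith

theorem sum_pow_le_card {ι : Type} (s : Finset ι) (f : ι → ℝ) (hf : ∀ i ∈ s, 0 ≤ f i) (m : ℕ)
    (hm : 1 ≤ m) : (∑ i ∈ s, f i) ^ m ≤ (s.card : ℝ) ^ m * ∑ i ∈ s, f i ^ m := by
  rcases s.eq_empty_or_nonempty with rfl | hne
  · simp [zero_pow (by omega : m ≠ 0)]
  obtain ⟨i0, hi0, hmax⟩ := s.exists_max_image f hne
  calc (∑ i ∈ s, f i) ^ m ≤ ((s.card : ℝ) * f i0) ^ m := by
        refine pow_le_pow_left₀ (Finset.sum_nonneg hf) ?_ m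
        rw [← nsmul_eq_mul]
        exact Finset.sum_le_card_nsmul s f (f i0) hmax
    _ = (s.card : ℝ) ^ m * f i0 ^ m := mul_pow _ _ _
    _ ≤ (s.card : ℝ) ^ m * ∑ i ∈ s, f i ^ m := by
        gcongr
        exact Finset.single_le_sum (f := fun i => f i ^ m)
          (fun i hi => pow_nonneg (hf i hi) m) hi0

theorem dy_sum (J : Finset ℤ) (z : ℂ) :
    ∑ j ∈ J, dy j z = if ‖z‖ ≠ 0 ∧ Int.log 2 ‖z‖ ∈ J then z else 0 := by
  classical
  unfold dy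
  by_cases h : ‖z‖ ≠ 0
  · have h1 : ∀ j ∈ J, (if ‖z‖ ≠ 0 ∧ Int.log 2 ‖z‖ = j then z else 0) =
        if Int.log 2 ‖z‖ = j then z else 0 := by
      intro j _
      simp only [h, ne_eq, not_false_eq_true, true_and]
    rw [Finset.sum_congr rfl h1, Finset.sum_ite_eq]
    by_cases h2 : Int.log 2 ‖z‖ ∈ J
    · rw [if_pos h2, if_pos ⟨h, h2⟩]
    · rw [if_neg h2, if_neg fun h3 => h2 h3.2]
  · rw [if_neg fun h3 => h h3.1]
    exact Finset.sum_eq_zero fun j _ => if_neg fun h3 => h h3.1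

theorem dy_sum_pow (J : Finset ℤ) (z : ℂ) (m : ℕ) (hm : 1 ≤ m) :
    ∑ j ∈ J, ‖dy j z‖ ^ m ≤ ‖z‖ ^ m := by
  classical
  unfold dy
  by_cases h : ‖z‖ ≠ 0
  · have h1 : ∀ j ∈ J, ‖(if ‖z‖ ≠ 0 ∧ Int.log 2 ‖z‖ = j then z else 0)‖ ^ m =
        if Int.log 2 ‖z‖ = j then ‖z‖ ^ m else 0 := by
      intro j _
      by_cases h2 : Int.log 2 ‖z‖ = j
      · rw [if_pos ⟨h, h2⟩, if_pos h2]
      · rw [if_neg fun h3 => h2 h3.2, if_neg h2, norm_zero, zero_pow (by omega)]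
    rw [Finset.sum_congr rfl h1, Finset.sum_ite_eq]
    split_ifs
    · exact le_rfl
    · positivity
  · have h1 : ∀ j ∈ J, ‖(if ‖z‖ ≠ 0 ∧ Int.log 2 ‖z‖ = j then z else 0)‖ ^ m = 0 := by
      intro j _
      rw [if_neg fun h3 => h h3.1, norm_zero, zero_pow (by omega)]
    rw [Finset.sum_eq_zero h1]
    positivity

/-- pointwise bound by the dyadic pieces -/
theorem ptw (p n K : ℕ) (hp : 1 < p) (hK : 1 ≤ K) (z : ℕ → ℂ) (J0 : Finset ℤ)
    (hJ0 : ∀ x, x < p ^ n → ‖z x‖ ≠ 0 → Int.log 2 ‖z x‖ ∈ J0) :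
    ‖∑ x ∈ range (p ^ n), z x‖ ^ (2 * K) ≤ 2 ^ (2 * K) *
      (((n * p + 3 : ℕ) : ℝ) ^ (2 * K) * ∑ j ∈ J0, ‖∑ x ∈ range (p ^ n), dy j (z x)‖ ^ (2 * K) +
        ∑ x ∈ range (p ^ n), ‖z x‖ ^ (2 * K)) := by
  classical
  have h2K : 1 ≤ 2 * K := by omega
  have hXpos : 0 < p ^ n := pow_pos (by omega) n
  obtain ⟨x0, hx0, hmax⟩ := (range (p ^ n)).exists_max_image (fun x => ‖z x‖)
    ⟨0, Finset.mem_range.2 hXpos⟩
  set M : ℝ := ‖z x0‖ with hM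
  have hM0 : 0 ≤ M := norm_nonneg _
  have hMpow : M ^ (2 * K) ≤ ∑ x ∈ range (p ^ n), ‖z x‖ ^ (2 * K) :=
    Finset.single_le_sum (f := fun x => ‖z x‖ ^ (2 * K)) (fun x _ => by positivity) hx0
  have hXr : (0 : ℝ) < (p : ℝ) ^ n := by exact_mod_cast hXpos
  rcases hM0.eq_or_lt with hMz | hMpos
  · -- everything vanishes
    have h1 : ∀ x ∈ range (p ^ n), z x = 0 := by
      intro x hx
      have h2 := hmax x hx
      rw [← hMz] at h2
      exact norm_le_zero_iff.1 h2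
    rw [Finset.sum_eq_zero h1, norm_zero, zero_pow (by omega)]
    positivity
  -- the relevant levels
  let lo : ℤ := Int.log 2 (M / (2 * (p : ℝ) ^ n))
  let hi : ℤ := Int.log 2 M
  have hcut : 0 < M / (2 * (p : ℝ) ^ n) := by positivity
  let J : Finset ℤ := J0.filter fun j => lo ≤ j ∧ j ≤ hi
  have hJcard : (J.card : ℝ) ≤ ((n * p + 3 : ℕ) : ℝ) := by
    have h1 : (2 : ℝ) ^ hi ≤ M := by
      have := Int.zpow_log_le_self (R := ℝ) (b := 2) (by norm_num) hMpos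
      exact_mod_cast this
    have h2 : M / (2 * (p : ℝ) ^ n) < (2 : ℝ) ^ (lo + 1) := by
      have := Int.lt_zpow_succ_log_self (R := ℝ) (b := 2) (by norm_num) (M / (2 * (p : ℝ) ^ n))
      simp only [Nat.cast_ofNat] at this
      exact this
    have h3 : (p : ℝ) ^ n ≤ (2 : ℝ) ^ ((n * p : ℕ) : ℤ) := by
      rw [zpow_natCast, mul_comm, pow_mul]
      refine pow_le_pow_left₀ (by positivity) ?_ n
      exact_mod_cast (Nat.lt_two_pow_self (n := p)).le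
    have h4 : (2 : ℝ) ^ hi < (2 : ℝ) ^ (lo + 1 + 1 + ((n * p : ℕ) : ℤ)) := by
      rw [div_lt_iff₀ (by positivity)] at h2
      calc (2 : ℝ) ^ hi ≤ M := h1
        _ < (2 : ℝ) ^ (lo + 1) * (2 * (p : ℝ) ^ n) := h2
        _ ≤ (2 : ℝ) ^ (lo + 1) * (2 * (2 : ℝ) ^ ((n * p : ℕ) : ℤ)) := by gcongr
        _ = (2 : ℝ) ^ (lo + 1 + 1 + ((n * p : ℕ) : ℤ)) := by
            rw [zpow_add₀ (by norm_num : (2 : ℝ) ≠ 0) (lo + 1 + 1),
              zpow_add₀ (by norm_num : (2 : ℝ) ≠ 0) (lo + 1) 1, zpow_one]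
            ring
    have h5 : hi < lo + 1 + 1 + ((n * p : ℕ) : ℤ) :=
      (zpow_lt_zpow_iff_right₀ (by norm_num : (1 : ℝ) < 2)).1 h4
    have h6 : J ⊆ Finset.Icc lo hi := by
      intro j hj
      rw [Finset.mem_filter] at hj
      exact Finset.mem_Icc.2 hj.2
    have h7 : J.card ≤ n * p + 3 := by
      refine (Finset.card_le_card h6).trans ?_
      rw [Int.card_Icc]
      omega
    exact_mod_cast h7
  -- decomposition
  have hdec : ‖∑ x ∈ range (p ^ n), z x‖ ≤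
      ∑ j ∈ J, ‖∑ x ∈ range (p ^ n), dy j (z x)‖ + M := by
    have h1 : ∑ x ∈ range (p ^ n), z x = ∑ j ∈ J, ∑ x ∈ range (p ^ n), dy j (z x) +
        ∑ x ∈ range (p ^ n), (z x - ∑ j ∈ J, dy j (z x)) := by
      rw [Finset.sum_comm, ← Finset.sum_add_distrib]
      exact Finset.sum_congr rfl fun x _ => by ring
    have h2 : ∀ x ∈ range (p ^ n), ‖z x - ∑ j ∈ J, dy j (z x)‖ ≤ M / (2 * (p : ℝ) ^ n) := by
      intro x hx
      rw [dy_sum]
      split_ifs with h3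
      · rw [sub_self, norm_zero]
        exact hcut.le
      · rw [sub_zero]
        by_contra h4
        rw [not_le] at h4
        have h5 : ‖z x‖ ≠ 0 := (hcut.trans h4).ne'
        refine h3 ⟨h5, ?_⟩
        rw [Finset.mem_filter]
        refine ⟨hJ0 x (Finset.mem_range.1 hx) h5, ?_, ?_⟩
        · exact Int.log_mono_right hcut h4.le
        · exact Int.log_mono_right (hcut.trans h4) (hmax x hx)
    have h3 : ‖∑ x ∈ range (p ^ n), (z x - ∑ j ∈ J, dy j (z x))‖ ≤ M := by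
      calc ‖∑ x ∈ range (p ^ n), (z x - ∑ j ∈ J, dy j (z x))‖
          ≤ ∑ x ∈ range (p ^ n), ‖z x - ∑ j ∈ J, dy j (z x)‖ := norm_sum_le _ _
        _ ≤ ∑ _x ∈ range (p ^ n), M / (2 * (p : ℝ) ^ n) := Finset.sum_le_sum h2
        _ = (p : ℝ) ^ n * (M / (2 * (p : ℝ) ^ n)) := by
            rw [Finset.sum_const, Finset.card_range, nsmul_eq_mul]
            push_cast
            ring
        _ = M / 2 := by field_simp
        _ ≤ M := by linarith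
    rw [h1]
    exact (norm_add_le _ _).trans (add_le_add (norm_sum_le _ _) h3)
  have hJsum : (∑ j ∈ J, ‖∑ x ∈ range (p ^ n), dy j (z x)‖) ^ (2 * K) ≤
      ((n * p + 3 : ℕ) : ℝ) ^ (2 * K) *
        ∑ j ∈ J0, ‖∑ x ∈ range (p ^ n), dy j (z x)‖ ^ (2 * K) := by
    refine (sum_pow_le_card J _ (fun _ _ => norm_nonneg _) (2 * K) h2K).trans ?_
    have h1 : ∑ j ∈ J, ‖∑ x ∈ range (p ^ n), dy j (z x)‖ ^ (2 * K) ≤
        ∑ j ∈ J0, ‖∑ x ∈ range (p ^ n), dy j (z x)‖ ^ (2 * K) :=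
      Finset.sum_le_sum_of_subset_of_nonneg (Finset.filter_subset _ _) fun _ _ _ => by positivity
    have h2 : 0 ≤ ∑ j ∈ J, ‖∑ x ∈ range (p ^ n), dy j (z x)‖ ^ (2 * K) :=
      Finset.sum_nonneg fun _ _ => by positivity
    gcongr
  calc ‖∑ x ∈ range (p ^ n), z x‖ ^ (2 * K)
      ≤ (∑ j ∈ J, ‖∑ x ∈ range (p ^ n), dy j (z x)‖ + M) ^ (2 * K) :=
        pow_le_pow_left₀ (norm_nonneg _) hdec _
    _ ≤ 2 ^ (2 * K) * ((∑ j ∈ J, ‖∑ x ∈ range (p ^ n), dy j (z x)‖) ^ (2 * K) + M ^ (2 * K)) :=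
        two_add_pow (Finset.sum_nonneg fun _ _ => norm_nonneg _) hM0 _
    _ ≤ _ := by gcongr

/-- the estimate for one dyadic piece -/
theorem piece (hCB : T_CB) {p d : ℕ} (hp : 1 < p) (hd : 1 ≤ d) {C1 : ℝ}
    (hC1 : ∀ (n : ℕ) (D lam : ℝ) (G : Type) [AddCommGroup G] [Fintype G] (τ : ℤ[X] →+ G)
      (f : ℕ → G → ℂ), 1 ≤ D → Lev p d n D → 1 ≤ lam → Fam p d n τ f → Bd p n f →
      ∑ g, (if ‖∑ x ∈ range (p ^ n), f x g‖ ≤ lam then
          ‖∑ x ∈ range (p ^ n), f x g‖ ^ (2 * KK d) else 0) ≤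
        C1 * ((n : ℝ) + 1) * D * (p : ℝ) ^ (n * (KK d - 1)) * lam ^ (2 * KK d - 2 * KK d) *
          En p n f) (hC1' : 1 ≤ C1)
    {n : ℕ} {D : ℝ} (hD : 1 ≤ D) (hL : Lev p d n D) {G : Type} [AddCommGroup G] [Fintype G]
    {τ : ℤ[X] →+ G} {u : ℕ → G → ℂ} (hu : Fam p d n τ u) (j : ℤ) :
    ∑ g, ‖∑ x ∈ range (p ^ n), dy j (u x g)‖ ^ (2 * KK d) ≤
      (C1 * 4 ^ (KK d - 1)) * ((n : ℝ) + 1) * D * (p : ℝ) ^ (n * (KK d - 1)) *
        ∑ x ∈ range (p ^ n), ∑ g, ‖dy j (u x g)‖ ^ (2 * KK d) := by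
  have hK : 1 ≤ KK d := by
    unfold KK
    have : 2 ≤ d * (d + 1) := by nlinarith
    omega
  set K := KK d with hKdef
  set t : ℝ := (2 : ℝ) ^ (-(j + 1)) with ht
  have htpos : 0 < t := by positivity
  let φ : ℝ → ℂ := fun s => if s ≠ 0 ∧ Int.log 2 s = j then ((t : ℝ) : ℂ) else 0
  let v : ℕ → G → ℂ := fun x g => φ ‖u x g‖ * u x g
  have hv : ∀ x g, v x g = (t : ℂ) * dy j (u x g) := by
    intro x g
    simp only [v, φ, dy]
    split_ifs with h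
    · rfl
    · simp
  have hvn : ∀ x g, ‖v x g‖ = t * ‖dy j (u x g)‖ := by
    intro x g
    rw [hv, norm_mul, Complex.norm_real, Real.norm_of_nonneg htpos.le]
  have hvF : Fam p d n τ v := fun x hx => (hCB p d (d * n) G τ hp).2.2.1 n (x : ℤ) φ (u x)
    (hu x hx)
  have hdy : ∀ z : ℂ, dy j z ≠ 0 → 1 / 2 ≤ t * ‖dy j z‖ ∧ t * ‖dy j z‖ ≤ 1 := by
    intro z hz
    unfold dy at hz ⊢
    split_ifs at hz ⊢ with h
    · have hzpos : 0 < ‖z‖ := lt_of_le_of_ne (norm_nonneg _) (Ne.symm h.1)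
      have h1 : (2 : ℝ) ^ j ≤ ‖z‖ := by
        have := Int.zpow_log_le_self (R := ℝ) (b := 2) (by norm_num) hzpos
        rw [h.2] at this
        exact_mod_cast this
      have h2 : ‖z‖ < (2 : ℝ) ^ (j + 1) := by
        have := Int.lt_zpow_succ_log_self (R := ℝ) (b := 2) (by norm_num) ‖z‖
        rw [h.2] at this
        exact_mod_cast this
      have h3 : t * (2 : ℝ) ^ (j + 1) = 1 := by
        rw [ht, ← zpow_add₀ (by norm_num : (2 : ℝ) ≠ 0)]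
        simp
      have h4 : (2 : ℝ) ^ (j + 1) = 2 * (2 : ℝ) ^ j := by
        rw [zpow_add₀ (by norm_num : (2 : ℝ) ≠ 0), zpow_one]
        ring
      constructor
      · have h5 : t * (2 : ℝ) ^ j = 1 / 2 := by
          rw [h4] at h3
          linarith
        rw [← h5]
        gcongr
      · rw [← h3]
        gcongr
    · exact absurd rfl hz
  have hvB : Bd p n v := by
    intro x _ g
    rw [hvn]
    by_cases h : dy j (u x g) = 0
    · rw [h]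
      simp
    · exact (hdy _ h).2
  have hpR : (1 : ℝ) < p := by exact_mod_cast hp
  have hX1 : (1 : ℝ) ≤ (p : ℝ) ^ n := one_le_pow₀ hpR.le
  have h1 := hC1 n D ((p : ℝ) ^ n) G τ v hD hL hX1 hvF hvB
  have h2 : ∀ g : G, ‖∑ x ∈ range (p ^ n), v x g‖ ≤ (p : ℝ) ^ n := by
    intro g
    calc ‖∑ x ∈ range (p ^ n), v x g‖ ≤ ∑ x ∈ range (p ^ n), ‖v x g‖ := norm_sum_le _ _
      _ ≤ ∑ _x ∈ range (p ^ n), (1 : ℝ) :=
          Finset.sum_le_sum fun x hx => hvB x (Finset.mem_range.1 hx) g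
      _ = (p : ℝ) ^ n := by simp
  simp only [h2, if_true, Nat.sub_self, pow_zero, mul_one] at h1
  -- the left side
  have h3 : ∀ g : G, ‖∑ x ∈ range (p ^ n), v x g‖ ^ (2 * K) =
      t ^ (2 * K) * ‖∑ x ∈ range (p ^ n), dy j (u x g)‖ ^ (2 * K) := by
    intro g
    have h4 : ∑ x ∈ range (p ^ n), v x g = (t : ℂ) * ∑ x ∈ range (p ^ n), dy j (u x g) := by
      rw [Finset.mul_sum]
      exact Finset.sum_congr rfl fun x _ => hv x g
    rw [h4, norm_mul, Complex.norm_real, Real.norm_of_nonneg htpos.le, mul_pow]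
  -- the energy
  have h5 : En p n v ≤ 4 ^ (K - 1) * (t ^ (2 * K) *
      ∑ x ∈ range (p ^ n), ∑ g, ‖dy j (u x g)‖ ^ (2 * K)) := by
    unfold En
    rw [Finset.mul_sum, Finset.mul_sum]
    refine Finset.sum_le_sum fun x _ => ?_
    rw [Finset.mul_sum, Finset.mul_sum]
    refine Finset.sum_le_sum fun g _ => ?_
    rw [hvn, ← mul_pow]
    by_cases h : dy j (u x g) = 0
    · rw [h]
      simp only [norm_zero, mul_zero]
      rw [zero_pow (by omega), zero_pow (by omega)]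
      simp
    · have h6 := (hdy _ h).1
      set s : ℝ := t * ‖dy j (u x g)‖ with hs
      have h7 : 1 ≤ 4 * s ^ 2 := by nlinarith
      have h8 : 1 ≤ (4 * s ^ 2) ^ (K - 1) := one_le_pow₀ h7
      have h9 : s ^ (2 * K) = s ^ 2 * (s ^ 2) ^ (K - 1) := by
        rw [← pow_mul, ← pow_add]
        congr 1
        omega
      rw [h9]
      rw [mul_pow] at h8
      have h10 : 0 ≤ s ^ 2 := by positivity
      calc s ^ 2 = s ^ 2 * 1 := (mul_one _).symm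
        _ ≤ s ^ 2 * (4 ^ (K - 1) * (s ^ 2) ^ (K - 1)) := by gcongr
        _ = 4 ^ (K - 1) * (s ^ 2 * (s ^ 2) ^ (K - 1)) := by ring
  rw [Finset.sum_congr rfl fun g _ => h3 g, ← Finset.mul_sum] at h1
  have hfac : 0 ≤ C1 * ((n : ℝ) + 1) * D * (p : ℝ) ^ (n * (K - 1)) := by positivity
  have h11 : t ^ (2 * K) * ∑ g, ‖∑ x ∈ range (p ^ n), dy j (u x g)‖ ^ (2 * K) ≤
      t ^ (2 * K) * ((C1 * 4 ^ (K - 1)) * ((n : ℝ) + 1) * D * (p : ℝ) ^ (n * (K - 1)) *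
        ∑ x ∈ range (p ^ n), ∑ g, ‖dy j (u x g)‖ ^ (2 * K)) := by
    calc t ^ (2 * K) * ∑ g, ‖∑ x ∈ range (p ^ n), dy j (u x g)‖ ^ (2 * K)
        ≤ C1 * ((n : ℝ) + 1) * D * (p : ℝ) ^ (n * (K - 1)) * En p n v := h1
      _ ≤ C1 * ((n : ℝ) + 1) * D * (p : ℝ) ^ (n * (K - 1)) * (4 ^ (K - 1) * (t ^ (2 * K) *
          ∑ x ∈ range (p ^ n), ∑ g, ‖dy j (u x g)‖ ^ (2 * K))) := by gcongr
      _ = _ := by ring
  exact le_of_mul_le_mul_left h11 (by positivity)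

theorem lf (hLM : T_LM) (hCB : T_CB) : T_LF := by
  classical
  intro p d hp hd
  have hK : 1 ≤ KK d := by
    unfold KK
    have : 2 ≤ d * (d + 1) := by nlinarith
    omega
  obtain ⟨C1, hC1', hC1⟩ := hLM p d (KK d) hp hd le_rfl
  set K := KK d with hKdef
  set A : ℝ := 2 ^ (2 * K) * ((((p + 3 : ℕ) : ℝ)) ^ (2 * K) * (C1 * 4 ^ (K - 1)) + 1) with hA
  set C : ℕ := max (2 * K + 1) ⌈A⌉₊ with hC
  refine ⟨C, by omega, ?_⟩
  intro n D hD hL G _ _ τ u hu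
  have hpR : (1 : ℝ) < p := by exact_mod_cast hp
  -- the set of levels
  let J0 : Finset ℤ := ((range (p ^ n)) ×ˢ (univ : Finset G)).image
    fun q => Int.log 2 ‖u q.1 q.2‖
  have hJ0 : ∀ (g : G) (x : ℕ), x < p ^ n → ‖u x g‖ ≠ 0 → Int.log 2 ‖u x g‖ ∈ J0 := by
    intro g x hx _
    exact Finset.mem_image.2 ⟨(x, g), Finset.mem_product.2 ⟨Finset.mem_range.2 hx,
      Finset.mem_univ g⟩, rfl⟩
  set T : ℝ := ∑ x ∈ range (p ^ n), ∑ g, ‖u x g‖ ^ (2 * K) with hT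
  have hT0 : 0 ≤ T := Finset.sum_nonneg fun _ _ => Finset.sum_nonneg fun _ _ => by positivity
  set P : ℝ := (p : ℝ) ^ (n * (K - 1)) with hP
  have hP1 : 1 ≤ P := one_le_pow₀ hpR.le
  have hn1 : (1 : ℝ) ≤ (n : ℝ) + 1 := by
    have : (0 : ℝ) ≤ n := Nat.cast_nonneg n
    linarith
  -- sum over the pieces
  have hpieces : ∑ j ∈ J0, ∑ g, ‖∑ x ∈ range (p ^ n), dy j (u x g)‖ ^ (2 * K) ≤
      (C1 * 4 ^ (K - 1)) * ((n : ℝ) + 1) * D * P * T := by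
    calc ∑ j ∈ J0, ∑ g, ‖∑ x ∈ range (p ^ n), dy j (u x g)‖ ^ (2 * K)
        ≤ ∑ j ∈ J0, (C1 * 4 ^ (K - 1)) * ((n : ℝ) + 1) * D * P *
            ∑ x ∈ range (p ^ n), ∑ g, ‖dy j (u x g)‖ ^ (2 * K) :=
          Finset.sum_le_sum fun j _ => piece hCB hp hd hC1 hC1' hD hL hu j
      _ = (C1 * 4 ^ (K - 1)) * ((n : ℝ) + 1) * D * P *
            ∑ x ∈ range (p ^ n), ∑ g, ∑ j ∈ J0, ‖dy j (u x g)‖ ^ (2 * K) := by
          rw [← Finset.mul_sum, Finset.sum_comm]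
          congr 1
          exact Finset.sum_congr rfl fun x _ => Finset.sum_comm
      _ ≤ (C1 * 4 ^ (K - 1)) * ((n : ℝ) + 1) * D * P * T := by
          have : ∑ x ∈ range (p ^ n), ∑ g, ∑ j ∈ J0, ‖dy j (u x g)‖ ^ (2 * K) ≤ T :=
            Finset.sum_le_sum fun x _ => Finset.sum_le_sum fun g _ =>
              dy_sum_pow J0 (u x g) (2 * K) (by omega)
          gcongr
  have hmain : ∑ g, ‖∑ x ∈ range (p ^ n), u x g‖ ^ (2 * K) ≤
      2 ^ (2 * K) * (((n * p + 3 : ℕ) : ℝ) ^ (2 * K) *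
        ((C1 * 4 ^ (K - 1)) * ((n : ℝ) + 1) * D * P * T) + T) := by
    calc ∑ g, ‖∑ x ∈ range (p ^ n), u x g‖ ^ (2 * K)
        ≤ ∑ g, 2 ^ (2 * K) * (((n * p + 3 : ℕ) : ℝ) ^ (2 * K) *
            ∑ j ∈ J0, ‖∑ x ∈ range (p ^ n), dy j (u x g)‖ ^ (2 * K) +
            ∑ x ∈ range (p ^ n), ‖u x g‖ ^ (2 * K)) :=
          Finset.sum_le_sum fun g _ => ptw p n K hp hK (fun x => u x g) J0 (hJ0 g)
      _ = 2 ^ (2 * K) * (((n * p + 3 : ℕ) : ℝ) ^ (2 * K) *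
            ∑ j ∈ J0, ∑ g, ‖∑ x ∈ range (p ^ n), dy j (u x g)‖ ^ (2 * K) + T) := by
          rw [← Finset.mul_sum, Finset.sum_add_distrib, ← Finset.mul_sum, Finset.sum_comm,
            Finset.sum_comm (s := univ) (t := range (p ^ n))]
      _ ≤ _ := by gcongr
  have hnp : ((n * p + 3 : ℕ) : ℝ) ≤ ((p + 3 : ℕ) : ℝ) * ((n : ℝ) + 1) := by
    push_cast
    have h0 : (0 : ℝ) ≤ n := Nat.cast_nonneg n
    nlinarith
  have hfin : 2 ^ (2 * K) * (((n * p + 3 : ℕ) : ℝ) ^ (2 * K) *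
        ((C1 * 4 ^ (K - 1)) * ((n : ℝ) + 1) * D * P * T) + T) ≤
      A * ((n : ℝ) + 1) ^ (2 * K + 1) * D * P * T := by
    have h1 : ((n * p + 3 : ℕ) : ℝ) ^ (2 * K) ≤
        ((p + 3 : ℕ) : ℝ) ^ (2 * K) * ((n : ℝ) + 1) ^ (2 * K) := by
      rw [← mul_pow]
      exact pow_le_pow_left₀ (by positivity) hnp _
    have h2 : T ≤ ((n : ℝ) + 1) ^ (2 * K + 1) * D * P * T := by
      have h3 : 1 ≤ ((n : ℝ) + 1) ^ (2 * K + 1) := one_le_pow₀ hn1
      have h4 : 1 ≤ ((n : ℝ) + 1) ^ (2 * K + 1) * D * P := by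
        have h5 : 1 ≤ ((n : ℝ) + 1) ^ (2 * K + 1) * D := by nlinarith
        nlinarith
      nlinarith
    calc 2 ^ (2 * K) * (((n * p + 3 : ℕ) : ℝ) ^ (2 * K) *
        ((C1 * 4 ^ (K - 1)) * ((n : ℝ) + 1) * D * P * T) + T)
        ≤ 2 ^ (2 * K) * ((((p + 3 : ℕ) : ℝ) ^ (2 * K) * ((n : ℝ) + 1) ^ (2 * K)) *
          ((C1 * 4 ^ (K - 1)) * ((n : ℝ) + 1) * D * P * T) +
            ((n : ℝ) + 1) ^ (2 * K + 1) * D * P * T) := by gcongr
      _ = A * ((n : ℝ) + 1) ^ (2 * K + 1) * D * P * T := by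
          rw [hA]
          ring
  have hA0 : 0 ≤ A := by positivity
  have hAC : A ≤ (C : ℝ) := by
    refine (Nat.le_ceil A).trans ?_
    exact_mod_cast le_max_right _ _
  have hpowC : ((n : ℝ) + 1) ^ (2 * K + 1) ≤ ((n : ℝ) + 1) ^ C :=
    pow_le_pow_right₀ hn1 (le_max_left _ _)
  calc ∑ g, ‖∑ x ∈ range (p ^ n), u x g‖ ^ (2 * K) ≤ _ := hmain
    _ ≤ A * ((n : ℝ) + 1) ^ (2 * K + 1) * D * P * T := hfin
    _ ≤ (C : ℝ) * ((n : ℝ) + 1) ^ C * D * P * T := by gcongr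

end Pool.Agent.H20.CV
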